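import Pool.Agent.Hhelper28.Quot.Class

/-!
# Polynomially many quotients
-/

namespace Pool.Hhelper28.Quot

/-- Index set of the lattice vectors that have to be tested. -/
abbrev Box (n : ℕ) : Type := Fin n × Fin (12 * n + 1) × Fin (14 * n + 1)

/-- The vector `(x, t, m)` of an index. -/
def vec (n : ℕ) (u : Box n) : Fin 3 → ℤ := ![(u.1 : ℤ) + 1, (u.2.1 : ℤ) - 6 * n, (u.2.2 : ℤ) - 7 * n]

/-- The set recovered from three half-space patterns. -/
def rec3 (n : ℕ) (A : Finset (Box n) × Finset (Box n) × Finset (Box n)) : Set ℕ :=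
  {x | x = 0 ∨ n < x ∨ ∃ u : Box n, u ∈ A.1 ∧ u ∈ A.2.1 ∧ u ∈ A.2.2 ∧ (u.1 : ℕ) + 1 = x}

open Classical in
/-- The half-space pattern of a form. -/
noncomputable def pat (n : ℕ) (a : Fin 3 → ℤ) : Finset (Box n) :=
  Finset.univ.filter (fun u => 0 ≤ ∑ i, a i * vec n u i)

lemma pat_mem (n : ℕ) (a : Fin 3 → ℤ) : pat n a ∈ half (vec n) := by
  classical
  unfold half
  rw [Finset.mem_filter]
  refine ⟨Finset.mem_univ _, a, fun u => ?_⟩
  unfold pat
  simp

lemma class_subset {n : ℕ} {S : Set ℕ} (hS : IsNS S) (hn : ∀ x, n < x → x ∈ S) (hq : IsQ3 S) :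
    S = Set.univ ∨ ∃ A0 ∈ half (vec n), ∃ A1 ∈ half (vec n), ∃ A2 ∈ half (vec n),
      rec3 n (A0, A1, A2) = S := by
  classical
  obtain ⟨α, β, γ, -, hβ, hγ, hδ, hmem⟩ := data_of_quotient hq
  by_cases h1 : (1 : ℕ) ∈ S
  · left
    ext x
    simp only [Set.mem_univ, iff_true]
    induction x with
    | zero => exact hS.1
    | succ x ih => exact hS.2.1 x ih 1 h1
  right
  have h1' : ¬ Mem α β γ 1 := by
    intro h
    apply h1
    rw [hmem]
    exact_mod_cast h
  obtain ⟨α', β', γ', -, -, -, -, -, hM, hb⟩ := reduce α β γ hβ hγ hδ h1'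
  refine ⟨pat n ![α' 0, β' 0, γ' 0], pat_mem _ _, pat n ![α' 1, β' 1, γ' 1], pat_mem _ _,
    pat n ![α' 2, β' 2, γ' 2], pat_mem _ _, ?_⟩
  have hpat : ∀ (i : Fin 3) (u : Box n), u ∈ pat n ![α' i, β' i, γ' i] ↔
      0 ≤ α' i * ((u.1 : ℤ) + 1) + β' i * ((u.2.1 : ℤ) - 6 * n) + γ' i * ((u.2.2 : ℤ) - 7 * n) := by
    intro i u
    unfold pat
    rw [Finset.mem_filter, Fin.sum_univ_three]
    simp only [Finset.mem_univ, true_and, vec, Matrix.cons_val_zero, Matrix.cons_val_one,
      Matrix.cons_val]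
  ext x
  unfold rec3
  simp only [Set.mem_ofPred_eq]
  constructor
  · rintro (h | h | ⟨u, h0, h2, h3, hx⟩)
    · rw [h]
      exact hS.1
    · exact hn x h
    · rw [hmem, ← hM]
      refine ⟨(u.2.1 : ℤ) - 6 * n, (u.2.2 : ℤ) - 7 * n, fun i => ?_⟩
      have hxz : (x : ℤ) = (u.1 : ℤ) + 1 := by
        rw [← hx]
        push_cast
        ring
      rw [hxz]
      fin_cases i
      · exact (hpat 0 u).1 h0
      · exact (hpat 1 u).1 h2
      · exact (hpat 2 u).1 h3
  · intro hxS
    by_cases hx0 : x = 0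
    · exact Or.inl hx0
    by_cases hxn : n < x
    · exact Or.inr (Or.inl hxn)
    right
    right
    rw [not_lt] at hxn
    have hxpos : (0 : ℤ) < x := by
      have : 0 < x := Nat.pos_of_ne_zero hx0
      exact_mod_cast this
    obtain ⟨t, m, ht, hm, hf⟩ := hb x hxpos ((hmem x).1 hxS)
    have hxn' : (x : ℤ) ≤ n := by exact_mod_cast hxn
    rw [abs_le] at ht hm
    obtain ⟨j, hj⟩ := Int.eq_ofNat_of_zero_le (show 0 ≤ t + 6 * n by linarith)
    obtain ⟨k, hk⟩ := Int.eq_ofNat_of_zero_le (show 0 ≤ m + 7 * n by linarith)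
    have hjlt : j < 12 * n + 1 := by
      have : (j : ℤ) < 12 * n + 1 := by rw [← hj]; linarith
      exact_mod_cast this
    have hklt : k < 14 * n + 1 := by
      have : (k : ℤ) < 14 * n + 1 := by rw [← hk]; linarith
      exact_mod_cast this
    let u : Box n := (⟨x - 1, by omega⟩, ⟨j, hjlt⟩, ⟨k, hklt⟩)
    have hu1 : ((u.1 : ℕ) : ℤ) + 1 = x := by
      show (((x - 1 : ℕ) : ℤ)) + 1 = x
      have : 1 ≤ x := by omega
      push_cast [this]
      ring
    have hu2 : ((u.2.1 : ℕ) : ℤ) - 6 * n = t := by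
      show ((j : ℕ) : ℤ) - 6 * n = t
      rw [← hj]
      ring
    have hu3 : ((u.2.2 : ℕ) : ℤ) - 7 * n = m := by
      show ((k : ℕ) : ℤ) - 7 * n = m
      rw [← hk]
      ring
    refine ⟨u, ?_, ?_, ?_, ?_⟩
    · rw [hpat, hu1, hu2, hu3]
      exact hf 0
    · rw [hpat, hu1, hu2, hu3]
      exact hf 1
    · rw [hpat, hu1, hu2, hu3]
      exact hf 2
    · exact_mod_cast hu1

lemma class_finite_card (n : ℕ) (hn : 1 ≤ n) :
    {S : Set ℕ | IsNS S ∧ (∀ x, n < x → x ∈ S) ∧ IsQ3 S}.ncard ≤ 195 ^ 10 * n ^ 27 := by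
  classical
  set H := half (vec n) with hH
  set F : Finset (Set ℕ) := insert Set.univ ((H ×ˢ (H ×ˢ H)).image (rec3 n)) with hF
  have hsub : {S : Set ℕ | IsNS S ∧ (∀ x, n < x → x ∈ S) ∧ IsQ3 S} ⊆ (F : Set (Set ℕ)) := by
    rintro S ⟨h1, h2, h3⟩
    rw [hF, Finset.mem_coe, Finset.mem_insert, Finset.mem_image]
    rcases class_subset h1 h2 h3 with h | ⟨A0, h0, A1, h1', A2, h2', h⟩
    · exact Or.inl h
    · right
      exact ⟨(A0, A1, A2), by
        rw [Finset.mem_product, Finset.mem_product]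
        exact ⟨h0, h1', h2'⟩, h⟩
  have h1 := Set.ncard_le_ncard hsub (Finset.finite_toSet F)
  rw [Set.ncard_coe_finset] at h1
  refine h1.trans ?_
  have hcardU : Fintype.card (Box n) ≤ 195 * n ^ 3 ∧ 2 ≤ Fintype.card (Box n) := by
    rw [Fintype.card_prod, Fintype.card_prod, Fintype.card_fin, Fintype.card_fin,
      Fintype.card_fin]
    constructor
    · calc n * ((12 * n + 1) * (14 * n + 1)) ≤ n * ((13 * n) * (15 * n)) := by
            apply Nat.mul_le_mul_left
            apply Nat.mul_le_mul <;> omega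
        _ = 195 * n ^ 3 := by ring
    · calc 2 ≤ 1 * ((12 * 1 + 1) * (14 * 1 + 1)) := by norm_num
        _ ≤ n * ((12 * n + 1) * (14 * n + 1)) := by gcongr
  have hHc : H.card ≤ 2 * (195 * n ^ 3) ^ 3 := by
    refine (card_half (vec n) hcardU.2).trans ?_
    apply Nat.mul_le_mul_left
    exact Nat.pow_le_pow_left hcardU.1 3
  have h2 : F.card ≤ H.card ^ 3 + 1 := by
    rw [hF]
    refine (Finset.card_insert_le _ _).trans ?_
    have h3 := Finset.card_image_le (s := H ×ˢ (H ×ˢ H)) (f := rec3 n)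
    rw [Finset.card_product, Finset.card_product] at h3
    have e : H.card * (H.card * H.card) = H.card ^ 3 := by ring
    omega
  have h3 : H.card ^ 3 ≤ (2 * (195 * n ^ 3) ^ 3) ^ 3 := Nat.pow_le_pow_left hHc 3
  have h4 : (2 * (195 * n ^ 3) ^ 3) ^ 3 = 8 * 195 ^ 9 * n ^ 27 := by ring
  have h5 : 1 ≤ n ^ 27 := Nat.one_le_pow _ _ hn
  calc F.card ≤ H.card ^ 3 + 1 := h2
    _ ≤ 8 * 195 ^ 9 * n ^ 27 + 1 * n ^ 27 := by
        rw [h4] at h3
        omega
    _ = (8 * 195 ^ 9 + 1) * n ^ 27 := by ring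
    _ ≤ 195 ^ 10 * n ^ 27 := by
        apply Nat.mul_le_mul_right
        norm_num

/-- The number of all numerical semigroups with Frobenius number at most `n`. -/
lemma all_card (n : ℕ) :
    2 ^ ((n + 1) / 2) ≤ {S : Set ℕ | IsNS S ∧ ∀ x, n < x → x ∈ S}.ncard := by
  classical
  set P := Finset.Ioc (n / 2) n with hP
  have hPc : P.card = (n + 1) / 2 := by
    rw [hP, Nat.card_Ioc]
    omega
  set F : Finset (Set ℕ) := P.powerset.image (fun A => {x | x = 0 ∨ n < x ∨ x ∈ A}) with hF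
  have hFc : F.card = 2 ^ ((n + 1) / 2) := by
    rw [hF, Finset.card_image_of_injOn, Finset.card_powerset, hPc]
    intro A hA B hB h
    rw [Finset.mem_coe, Finset.mem_powerset] at hA hB
    have key : ∀ x ∈ P, x ∈ A ↔ x ∈ B := by
      intro x hx
      rw [hP, Finset.mem_Ioc] at hx
      have h1 := Set.ext_iff.1 h x
      simp only [Set.mem_ofPred_eq] at h1
      have hx0 : x ≠ 0 := by omega
      have hxn : ¬ n < x := by omega
      simpa [hx0, hxn] using h1
    ext x
    constructor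
    · intro hx
      exact (key x (hA hx)).1 hx
    · intro hx
      exact (key x (hB hx)).2 hx
  rw [← hFc, ← Set.ncard_coe_finset]
  apply Set.ncard_le_ncard
  · intro S hS
    rw [hF, Finset.mem_coe, Finset.mem_image] at hS
    obtain ⟨A, hA, rfl⟩ := hS
    rw [Finset.mem_powerset] at hA
    have hA' : ∀ x ∈ A, n / 2 < x ∧ x ≤ n := by
      intro x hx
      have := hA hx
      rwa [hP, Finset.mem_Ioc] at this
    refine ⟨⟨Or.inl rfl, ?_, ?_⟩, fun x hx => Or.inr (Or.inl hx)⟩
    · intro x hx y hy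
      simp only [Set.mem_ofPred_eq] at hx hy ⊢
      rcases hx with hx | hx | hx
      · rw [hx, zero_add]
        exact hy
      · right; left; omega
      · have hx' := hA' x hx
        rcases hy with hy | hy | hy
        · rw [hy, add_zero]
          exact Or.inr (Or.inr hx)
        · right; left; omega
        · have hy' := hA' y hy
          right; left; omega
    · apply (Set.finite_Iic n).subset
      intro x hx
      rw [Set.mem_Iic]
      by_contra hcon
      exact hx (Or.inr (Or.inl (not_le.1 hcon)))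
  · -- finiteness
    have hfin : (Set.range (fun A : (Finset.range (n + 1)).powerset =>
        ({x | n < x ∨ x ∈ (A : Finset ℕ)} : Set ℕ))).Finite := Set.finite_range _
    apply hfin.subset
    rintro S ⟨_, h2⟩
    refine ⟨⟨(Finset.range (n + 1)).filter (fun x => x ∈ S), ?_⟩, ?_⟩
    · rw [Finset.mem_powerset]
      exact Finset.filter_subset _ _
    · ext x
      simp only [Set.mem_ofPred_eq, Finset.mem_filter, Finset.mem_range]
      constructor
      · rintro (h | h)
        · exact h2 x h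
        · exact h.2
      · intro h
        by_cases hx : n < x
        · exact Or.inl hx
        · exact Or.inr ⟨by omega, h⟩

end Pool.Hhelper28.Quot
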