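import Pool.Agent.Hhelper28.Quot.Count

/-!
# Quotients of numerical semigroups with three generators and triangles
-/

namespace Pool.Hhelper28.Quot

/-- The integer triangle of a quotient. -/
lemma data_of_gen (a b c p : ℕ) (ha : 0 < a) (hb : 0 < b) (hc : 0 < c)
    (hgcd : Nat.gcd (Nat.gcd a b) c = 1) :
    ∃ α β γ : Fin 3 → ℤ, ∑ i, α i = p ∧ ∑ i, β i = 0 ∧ ∑ i, γ i = 0 ∧
      β 0 * γ 1 - β 1 * γ 0 ≠ 0 ∧
      ∀ x : ℕ, (∃ i j k : ℕ, p * x = a * i + b * j + c * k) ↔ Mem α β γ x := by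
  -- Bezout
  set d := Nat.gcd a b with hd
  have hd0 : 0 < d := Nat.gcd_pos_of_pos_left _ ha
  obtain ⟨a', ha'⟩ : d ∣ a := Nat.gcd_dvd_left a b
  obtain ⟨b', hb'⟩ : d ∣ b := Nat.gcd_dvd_right a b
  have ha'0 : 0 < a' := by
    apply Nat.pos_of_ne_zero
    intro h
    rw [h, mul_zero] at ha'
    omega
  have hb'0 : 0 < b' := by
    apply Nat.pos_of_ne_zero
    intro h
    rw [h, mul_zero] at hb'
    omega
  obtain ⟨r, s, hrs⟩ : ∃ r s : ℤ, (a : ℤ) * r + b * s = d := by
    refine ⟨Nat.gcdA a b, Nat.gcdB a b, ?_⟩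
    rw [← Nat.gcd_eq_gcd_ab]
  have hrs' : (a' : ℤ) * r + b' * s = 1 := by
    have h1 : (d : ℤ) * ((a' : ℤ) * r + b' * s) = d * 1 := by
      have e1 : (a : ℤ) = d * a' := by exact_mod_cast ha'
      have e2 : (b : ℤ) = d * b' := by exact_mod_cast hb'
      rw [e1, e2] at hrs
      linarith
    exact mul_left_cancel₀ (by exact_mod_cast hd0.ne') h1
  obtain ⟨y, z, hyz⟩ : ∃ y z : ℤ, (d : ℤ) * y + c * z = 1 := by
    refine ⟨Nat.gcdA d c, Nat.gcdB d c, ?_⟩
    rw [← Nat.gcd_eq_gcd_ab, hgcd]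
    rfl
  have e1 : (a : ℤ) = d * a' := by exact_mod_cast ha'
  have e2 : (b : ℤ) = d * b' := by exact_mod_cast hb'
  have haz : (0 : ℤ) < a := by exact_mod_cast ha
  have hbz : (0 : ℤ) < b := by exact_mod_cast hb
  have hcz : (0 : ℤ) < c := by exact_mod_cast hc
  have hdz : (0 : ℤ) < d := by exact_mod_cast hd0
  refine ⟨![a * (p * y * r), b * (p * y * s), c * (p * z)],
    ![-(a * c * r), -(b * c * s), c * d], ![a * b', -(b * a'), 0], ?_, ?_, ?_, ?_, ?_⟩
  · rw [Fin.sum_univ_three]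
    simp only [Matrix.cons_val_zero, Matrix.cons_val_one, Matrix.cons_val]
    linear_combination (p : ℤ) * y * hrs + (p : ℤ) * hyz
  · rw [Fin.sum_univ_three]
    simp only [Matrix.cons_val_zero, Matrix.cons_val_one, Matrix.cons_val]
    linear_combination -(c : ℤ) * hrs
  · rw [Fin.sum_univ_three]
    simp only [Matrix.cons_val_zero, Matrix.cons_val_one, Matrix.cons_val]
    rw [e1, e2]
    ring
  · simp only [Matrix.cons_val_zero, Matrix.cons_val_one]
    have : -((a : ℤ) * c * r) * -(b * a') - -(b * c * s) * (a * b') =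
        a * b * c * (a' * r + b' * s) := by ring
    rw [this, hrs']
    positivity
  · intro x
    constructor
    · rintro ⟨i, j, k, h⟩
      have hz : (p : ℤ) * x = a * i + b * j + c * k := by exact_mod_cast h
      -- `d` divides `k - p z x`
      have hdvd : (d : ℤ) ∣ (k : ℤ) - p * z * x := by
        have h1 : (d : ℤ) ∣ c * ((k : ℤ) - p * z * x) := by
          refine ⟨p * y * x - a' * i - b' * j, ?_⟩
          rw [e1, e2] at hz
          linear_combination -hz - (p : ℤ) * x * hyz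
        have hco : IsCoprime (d : ℤ) c := ⟨y, z, by linarith⟩
        exact hco.dvd_of_dvd_mul_left h1
      obtain ⟨t, ht⟩ := hdvd
      -- now the pair
      have h2 : (a' : ℤ) * (i - p * y * r * x + c * r * t) +
          b' * (j - p * y * s * x + c * s * t) = 0 := by
        have h3 : (d : ℤ) * ((a' : ℤ) * (i - p * y * r * x + c * r * t) +
          b' * (j - p * y * s * x + c * s * t)) = d * 0 := by
          rw [e1, e2] at hz
          linear_combination -hz - (c : ℤ) * ht - (p : ℤ) * x * hyz +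
            ((d : ℤ) * c * t - d * p * y * x) * hrs'
        exact mul_left_cancel₀ hdz.ne' h3
      have hco2 : IsCoprime (b' : ℤ) a' := ⟨s, r, by linarith⟩
      have hdvd2 : (b' : ℤ) ∣ (i - p * y * r * x + c * r * t) := by
        apply hco2.dvd_of_dvd_mul_left
        exact ⟨-(j - p * y * s * x + c * s * t), by linarith⟩
      obtain ⟨m, hm⟩ := hdvd2
      have hj : (j : ℤ) - p * y * s * x + c * s * t = -(a' * m) := by
        have hb'z : (b' : ℤ) ≠ 0 := by exact_mod_cast hb'0.ne'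
        apply mul_left_cancel₀ hb'z
        rw [hm] at h2
        linarith
      refine ⟨t, m, ?_⟩
      intro w
      fin_cases w
      · show 0 ≤ (a : ℤ) * (p * y * r) * x + -(a * c * r) * t + a * b' * m
        have : (a : ℤ) * (p * y * r) * x + -(a * c * r) * t + a * b' * m = a * i := by
          linear_combination -(a : ℤ) * hm
        rw [this]
        positivity
      · show 0 ≤ (b : ℤ) * (p * y * s) * x + -(b * c * s) * t + -(b * a') * m
        have : (b : ℤ) * (p * y * s) * x + -(b * c * s) * t + -(b * a') * m = b * j := by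
          linear_combination -(b : ℤ) * hj
        rw [this]
        positivity
      · show 0 ≤ (c : ℤ) * (p * z) * x + c * d * t + 0 * m
        have : (c : ℤ) * (p * z) * x + c * d * t + 0 * m = c * k := by
          linear_combination -(c : ℤ) * ht
        rw [this]
        positivity
    · rintro ⟨t, m, h⟩
      have h0 : 0 ≤ (a : ℤ) * (p * y * r) * x + -(a * c * r) * t + a * b' * m := h 0
      have h1 : 0 ≤ (b : ℤ) * (p * y * s) * x + -(b * c * s) * t + -(b * a') * m := h 1
      have h2 : 0 ≤ (c : ℤ) * (p * z) * x + c * d * t + 0 * m := h 2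
      have i0 : 0 ≤ (p : ℤ) * y * r * x - c * r * t + b' * m := by
        have e : (a : ℤ) * (p * y * r) * x + -(a * c * r) * t + a * b' * m =
          a * (p * y * r * x - c * r * t + b' * m) := by ring
        rw [e] at h0
        exact nonneg_of_mul_nonneg_right h0 haz
      have j0 : 0 ≤ (p : ℤ) * y * s * x - c * s * t - a' * m := by
        have e : (b : ℤ) * (p * y * s) * x + -(b * c * s) * t + -(b * a') * m =
          b * (p * y * s * x - c * s * t - a' * m) := by ring
        rw [e] at h1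
        exact nonneg_of_mul_nonneg_right h1 hbz
      have k0 : 0 ≤ (p : ℤ) * z * x + d * t := by
        have e : (c : ℤ) * (p * z) * x + c * d * t + 0 * m =
          c * (p * z * x + d * t) := by ring
        rw [e] at h2
        exact nonneg_of_mul_nonneg_right h2 hcz
      obtain ⟨i, hi⟩ := Int.eq_ofNat_of_zero_le i0
      obtain ⟨j, hj⟩ := Int.eq_ofNat_of_zero_le j0
      obtain ⟨k, hk⟩ := Int.eq_ofNat_of_zero_le k0
      refine ⟨i, j, k, ?_⟩
      have : (p : ℤ) * x = a * i + b * j + c * k := by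
        rw [← hi, ← hj, ← hk]
        linear_combination -(p : ℤ) * y * x * hrs + c * t * hrs + m * a' * e2 - m * b' * e1
          - (p : ℤ) * x * hyz
      exact_mod_cast this

/-- Numerical semigroup. -/
def IsNS (S : Set ℕ) : Prop := 0 ∈ S ∧ (∀ x ∈ S, ∀ y ∈ S, x + y ∈ S) ∧ Sᶜ.Finite

/-- A cofinite submonoid generated by at most three elements. -/
lemma gen_three {T : Set ℕ} (hT : IsNS T) (A : Finset ℕ) (hA : A.card ≤ 3)
    (hAT : (AddSubmonoid.closure (A : Set ℕ) : Set ℕ) = T) :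
    ∃ a b c : ℕ, 0 < a ∧ 0 < b ∧ 0 < c ∧ Nat.gcd (Nat.gcd a b) c = 1 ∧
      ∀ n, n ∈ T ↔ ∃ i j k : ℕ, n = a * i + b * j + c * k := by
  classical
  -- large elements
  obtain ⟨N, hN⟩ : ∃ N, ∀ n, N ≤ n → n ∈ T := by
    obtain ⟨N, hN⟩ := hT.2.2.bddAbove
    refine ⟨N + 1, fun n hn => ?_⟩
    by_contra h
    have := hN (show n ∈ Tᶜ from h)
    omega
  -- description of the closure
  have hcl : ∀ n, n ∈ T ↔ ∃ f : ℕ → ℕ, ∑ a ∈ A, f a * a = n := by
    intro n
    rw [← hAT, SetLike.mem_coe, AddSubmonoid.mem_closure_finset]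
    constructor
    · rintro ⟨f, -, h⟩
      exact ⟨f, by simpa [smul_eq_mul] using h⟩
    · rintro ⟨f, h⟩
      refine ⟨fun a => if a ∈ A then f a else 0, ?_, ?_⟩
      · intro a ha
        by_contra hcon
        have hcon' : a ∉ A := hcon
        simp [hcon'] at ha
      · rw [← h]
        apply Finset.sum_congr rfl
        intro a ha
        simp [ha]
  set B := A.erase 0 with hB
  have hcl2 : ∀ n, n ∈ T ↔ ∃ f : ℕ → ℕ, ∑ a ∈ B, f a * a = n := by
    intro n
    rw [hcl]
    have h1 : ∀ f : ℕ → ℕ, ∑ a ∈ A, f a * a = ∑ a ∈ B, f a * a := by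
      intro f
      rw [hB]
      by_cases h0 : 0 ∈ A
      · rw [← Finset.add_sum_erase A _ h0]
        simp
      · rw [Finset.erase_eq_of_notMem h0]
    simp only [h1]
  have hBpos : ∀ a ∈ B, 0 < a := by
    intro a ha
    exact Nat.pos_of_ne_zero (Finset.mem_erase.1 ha).1
  have hBcard : B.card ≤ 3 := (Finset.card_erase_le).trans hA
  obtain ⟨a, b, c, ha, hb, hc, habc⟩ : ∃ a b c : ℕ, 0 < a ∧ 0 < b ∧ 0 < c ∧
      ∀ n, n ∈ T ↔ ∃ i j k : ℕ, n = a * i + b * j + c * k := by
    rcases Nat.lt_or_ge B.card 1 with h | h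
    · have hB0 : B = ∅ := Finset.card_eq_zero.1 (by omega)
      have := hN (N + 1) (by omega)
      rw [hcl2, hB0] at this
      obtain ⟨f, hf⟩ := this
      simp at hf
    rcases Nat.lt_or_ge B.card 2 with h2 | h2
    · obtain ⟨a, ha⟩ := Finset.card_eq_one.1 (by omega : B.card = 1)
      have ha0 : 0 < a := hBpos a (by rw [ha]; simp)
      refine ⟨a, a, a, ha0, ha0, ha0, fun n => ?_⟩
      rw [hcl2, ha]
      constructor
      · rintro ⟨f, hf⟩
        rw [Finset.sum_singleton] at hf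
        exact ⟨f a, 0, 0, by rw [← hf]; ring⟩
      · rintro ⟨i, j, k, h⟩
        refine ⟨fun _ => i + j + k, ?_⟩
        rw [Finset.sum_singleton, h]
        ring
    rcases Nat.lt_or_ge B.card 3 with h3 | h3
    · obtain ⟨a, b, hab, hB2⟩ := Finset.card_eq_two.1 (by omega : B.card = 2)
      have ha0 : 0 < a := hBpos a (by rw [hB2]; simp)
      have hb0 : 0 < b := hBpos b (by rw [hB2]; simp)
      refine ⟨a, b, b, ha0, hb0, hb0, fun n => ?_⟩
      rw [hcl2, hB2]
      constructor
      · rintro ⟨f, hf⟩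
        rw [Finset.sum_pair hab] at hf
        exact ⟨f a, f b, 0, by rw [← hf]; ring⟩
      · rintro ⟨i, j, k, h⟩
        refine ⟨fun y => if y = a then i else j + k, ?_⟩
        rw [Finset.sum_pair hab, h]
        simp only [if_true, if_neg (Ne.symm hab)]
        ring
    · obtain ⟨a, b, c, hab, hac, hbc, hB3⟩ := Finset.card_eq_three.1 (by omega : B.card = 3)
      have ha0 : 0 < a := hBpos a (by rw [hB3]; simp)
      have hb0 : 0 < b := hBpos b (by rw [hB3]; simp)
      have hc0 : 0 < c := hBpos c (by rw [hB3]; simp)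
      have hsum : ∀ f : ℕ → ℕ, ∑ x ∈ ({a, b, c} : Finset ℕ), f x * x =
          f a * a + (f b * b + f c * c) := by
        intro f
        rw [Finset.sum_insert (by simp [hab, hac]), Finset.sum_pair hbc]
      refine ⟨a, b, c, ha0, hb0, hc0, fun n => ?_⟩
      rw [hcl2, hB3]
      constructor
      · rintro ⟨f, hf⟩
        rw [hsum] at hf
        exact ⟨f a, f b, f c, by rw [← hf]; ring⟩
      · rintro ⟨i, j, k, h⟩
        refine ⟨fun y => if y = a then i else if y = b then j else k, ?_⟩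
        rw [hsum, h]
        simp only [if_true, if_neg (Ne.symm hab), if_neg (Ne.symm hac), if_neg (Ne.symm hbc)]
        ring
  refine ⟨a, b, c, ha, hb, hc, ?_, habc⟩
  set d := Nat.gcd (Nat.gcd a b) c with hd
  have hda : d ∣ a := (Nat.gcd_dvd_left _ _).trans (Nat.gcd_dvd_left _ _)
  have hdb : d ∣ b := (Nat.gcd_dvd_left _ _).trans (Nat.gcd_dvd_right _ _)
  have hdc : d ∣ c := Nat.gcd_dvd_right _ _
  have hdT : ∀ n ∈ T, d ∣ n := by
    intro n hn
    obtain ⟨i, j, k, rfl⟩ := (habc n).1 hn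
    exact ((hda.mul_right i).add (hdb.mul_right j)).add (hdc.mul_right k)
  have h1 := hdT N (hN N le_rfl)
  have h2 := hdT (N + 1) (hN (N + 1) (by omega))
  have h3 := (Nat.dvd_add_right h1).1 h2
  exact Nat.dvd_one.1 h3

/-- `S = T / p` for a numerical semigroup `T` generated by at most three elements. -/
def IsQ3 (S : Set ℕ) : Prop :=
  ∃ (T : Set ℕ) (A : Finset ℕ) (p : ℕ), IsNS T ∧ A.card ≤ 3 ∧
    (AddSubmonoid.closure (A : Set ℕ) : Set ℕ) = T ∧ 1 ≤ p ∧ S = {x | p * x ∈ T}

lemma data_of_quotient {S : Set ℕ} (hS : IsQ3 S) :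
    ∃ α β γ : Fin 3 → ℤ, 0 < ∑ i, α i ∧ ∑ i, β i = 0 ∧ ∑ i, γ i = 0 ∧
      β 0 * γ 1 - β 1 * γ 0 ≠ 0 ∧ ∀ x : ℕ, x ∈ S ↔ Mem α β γ x := by
  obtain ⟨T, A, p, hT, hA, hAT, hp, rfl⟩ := hS
  obtain ⟨a, b, c, ha, hb, hc, hg, habc⟩ := gen_three hT A hA hAT
  obtain ⟨α, β, γ, hα, hβ, hγ, hδ, h⟩ := data_of_gen a b c p ha hb hc hg
  refine ⟨α, β, γ, ?_, hβ, hγ, hδ, fun x => ?_⟩
  · rw [hα]
    exact_mod_cast hp
  · rw [← h x]
    exact habc (p * x)

end Pool.Hhelper28.Quot
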