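import Pool.Agent.Hhelper28.Quot.Reduce

/-!
# Half-space patterns

The number of subsets of a finite set `U` of integer vectors in dimension three cut out by a
closed half space through the origin is at most `∑_{k ≤ 3} C(|U|, k)` (Sauer-Shelah).
-/

namespace Pool.Hhelper28.Quot

open Finset

section Patterns

variable {U : Type} [Fintype U] [DecidableEq U] (v : U → Fin 3 → ℤ)

open Classical in
/-- The sets cut out by closed half spaces through the origin. -/
noncomputable def half : Finset (Finset U) :=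
  Finset.univ.filter (fun A => ∃ a : Fin 3 → ℤ, ∀ u, u ∈ A ↔ 0 ≤ ∑ i, a i * v u i)

lemma half_shatters (s : Finset U) (hs : (half v).Shatters s) : s.card ≤ 3 := by
  classical
  by_contra hcon
  rw [not_le] at hcon
  have hnl : ¬ LinearIndependent ℚ (fun (u : s) (i : Fin 3) => ((v u i : ℤ) : ℚ)) := by
    intro h
    have := h.fintype_card_le_finrank
    rw [Module.finrank_fin_fun, Fintype.card_coe] at this
    omega
  rw [Fintype.not_linearIndependent_iff] at hnl
  obtain ⟨g0, hg0, i0, hi0⟩ := hnl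
  obtain ⟨g, hg, i1, hi1⟩ : ∃ g : s → ℚ,
      ∑ i, g i • (fun (j : Fin 3) => ((v i j : ℤ) : ℚ)) = 0 ∧ ∃ i, g i < 0 := by
    rcases lt_or_gt_of_ne hi0 with h | h
    · exact ⟨g0, hg0, i0, h⟩
    · refine ⟨fun i => -g0 i, ?_, i0, by simpa using h⟩
      simp only [neg_smul, Finset.sum_neg_distrib, hg0, neg_zero]
  set t : Finset U := (Finset.univ.filter (fun i : s => 0 ≤ g i)).map
    (Function.Embedding.subtype _) with ht
  have hts : t ⊆ s := by
    intro u hu
    rw [ht, Finset.mem_map] at hu
    obtain ⟨w, _, rfl⟩ := hu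
    exact w.2
  obtain ⟨A, hA, hsA⟩ := hs hts
  unfold half at hA
  rw [Finset.mem_filter] at hA
  obtain ⟨a, ha⟩ := hA.2
  have hmem : ∀ w : s, (w : U) ∈ A ↔ 0 ≤ g w := by
    intro w
    have h1 : (w : U) ∈ s ∩ A ↔ (w : U) ∈ A := by
      rw [Finset.mem_inter]
      exact ⟨fun h => h.2, fun h => ⟨w.2, h⟩⟩
    rw [← h1, hsA, ht, Finset.mem_map]
    constructor
    · rintro ⟨w', hw', he⟩
      have : w' = w := Subtype.ext he
      rw [← this]
      exact (Finset.mem_filter.1 hw').2
    · intro h
      exact ⟨w, Finset.mem_filter.2 ⟨Finset.mem_univ _, h⟩, rfl⟩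
  have hf : ∀ w : s, (0 : ℚ) ≤ g w * ∑ i, (a i : ℚ) * v w i := by
    intro w
    have h1 := hmem w
    rw [ha w] at h1
    by_cases h2 : 0 ≤ g w
    · have h3 : 0 ≤ ∑ i, a i * v w i := h1.2 h2
      have h4 : (0 : ℚ) ≤ ∑ i, (a i : ℚ) * v w i := by exact_mod_cast h3
      exact mul_nonneg h2 h4
    · have h3 : ¬ 0 ≤ ∑ i, a i * v w i := fun h => h2 (h1.1 h)
      have h4 : ∑ i, (a i : ℚ) * v w i < 0 := by
        have := not_le.1 h3
        exact_mod_cast this
      exact (mul_pos_of_neg_of_neg (not_le.1 h2) h4).le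
  have hf1 : (0 : ℚ) < g i1 * ∑ i, (a i : ℚ) * v i1 i := by
    have h1 := hmem i1
    rw [ha i1] at h1
    have h3 : ¬ 0 ≤ ∑ i, a i * v i1 i := fun h => absurd (h1.1 h) (not_le.2 hi1)
    have h4 : ∑ i, (a i : ℚ) * v i1 i < 0 := by
      have := not_le.1 h3
      exact_mod_cast this
    exact mul_pos_of_neg_of_neg hi1 h4
  have hsum : ∑ w : s, g w * ∑ i, (a i : ℚ) * v w i = 0 := by
    have h1 : ∀ i : Fin 3, ∑ w : s, g w * (v w i : ℚ) = 0 := by
      intro i
      have := congrFun hg i
      simpa [Finset.sum_apply, Pi.smul_apply, smul_eq_mul] using this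
    calc ∑ w : s, g w * ∑ i, (a i : ℚ) * v w i
        = ∑ w : s, ∑ i, (a i : ℚ) * (g w * v w i) := by
          apply Finset.sum_congr rfl
          intro w _
          rw [Finset.mul_sum]
          apply Finset.sum_congr rfl
          intro i _
          ring
      _ = ∑ i, (a i : ℚ) * ∑ w : s, g w * v w i := by
          rw [Finset.sum_comm]
          simp only [Finset.mul_sum]
      _ = 0 := by
          simp only [h1, mul_zero, Finset.sum_const_zero]
  have hpos : 0 < ∑ w : s, g w * ∑ i, (a i : ℚ) * v w i :=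
    Finset.sum_pos' (fun w _ => hf w) ⟨i1, Finset.mem_univ _, hf1⟩
  rw [hsum] at hpos
  exact lt_irrefl _ hpos

lemma card_half (hU : 2 ≤ Fintype.card U) : (half v).card ≤ 2 * (Fintype.card U) ^ 3 := by
  classical
  have h1 := (half v).card_le_card_shatterer
  have h2 := (half v).card_shatterer_le_sum_vcDim
  have h3 : (half v).vcDim ≤ 3 := by
    unfold Finset.vcDim
    apply Finset.sup_le
    intro s hs
    exact half_shatters v s (Finset.mem_shatterer.1 hs)
  have h4 : ∑ k ∈ Finset.Iic (half v).vcDim, (Fintype.card U).choose k ≤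
      ∑ k ∈ Finset.Iic 3, (Fintype.card U).choose k := by
    apply Finset.sum_le_sum_of_subset
    exact Finset.Iic_subset_Iic.2 h3
  have h5 : ∑ k ∈ Finset.Iic 3, (Fintype.card U).choose k ≤
      ∑ k ∈ Finset.Iic 3, (Fintype.card U) ^ k := by
    apply Finset.sum_le_sum
    intro k _
    exact Nat.choose_le_pow _ _
  have h6 : ∑ k ∈ Finset.Iic 3, (Fintype.card U) ^ k =
      1 + Fintype.card U + (Fintype.card U) ^ 2 + (Fintype.card U) ^ 3 := by
    have : (Finset.Iic 3 : Finset ℕ) = Finset.range 4 := by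
      ext k
      simp [Nat.lt_succ_iff]
    rw [this, Finset.sum_range_succ, Finset.sum_range_succ, Finset.sum_range_succ,
      Finset.sum_range_one]
    ring
  set M := Fintype.card U
  have h7 : 1 + M + M ^ 2 ≤ M ^ 3 := by nlinarith [sq_nonneg M]
  omega

end Patterns

end Pool.Hhelper28.Quot
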