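import Mathlib

/-!
# Lattice points in multiples of a triangle: reduction of the triangle

`Mem α β γ x`: the triangle with the three edge forms `α i x + β i t + γ i m` contains a lattice
point `(t, m)` at height `x`. After a unimodular change of the variables `(t, m)` and a
translation by a multiple of `x` only the points with `|t| ≤ 6 x`, `|m| ≤ 7 x` have to be tested,
unless there is a lattice point at height `1`.
-/

namespace Pool.Hhelper28.Quot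

/-- There is a lattice point at height `x`. -/
def Mem (α β γ : Fin 3 → ℤ) (x : ℤ) : Prop :=
  ∃ t m : ℤ, ∀ i, 0 ≤ α i * x + β i * t + γ i * m

lemma mem_trans (α β γ : Fin 3 → ℤ) (k l x : ℤ) :
    Mem (fun i => α i + k * β i + l * γ i) β γ x ↔ Mem α β γ x := by
  constructor
  · rintro ⟨t, m, h⟩
    refine ⟨t + k * x, m + l * x, fun i => ?_⟩
    have := h i
    linarith
  · rintro ⟨t, m, h⟩
    refine ⟨t - k * x, m - l * x, fun i => ?_⟩
    have := h i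
    linarith

lemma mem_basis (α β γ : Fin 3 → ℤ) {t1 m1 t2 m2 : ℤ} (hdet : t2 * m1 - m2 * t1 = 1) (x : ℤ) :
    Mem α (fun i => β i * t2 + γ i * m2) (fun i => β i * t1 + γ i * m1) x ↔ Mem α β γ x := by
  constructor
  · rintro ⟨s, n, h⟩
    refine ⟨s * t2 + n * t1, s * m2 + n * m1, fun i => ?_⟩
    have := h i
    linarith
  · rintro ⟨t, m, h⟩
    refine ⟨t * m1 - m * t1, m * t2 - t * m2, fun i => ?_⟩
    have := h i
    have e : α i * x + (β i * t2 + γ i * m2) * (t * m1 - m * t1) +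
        (β i * t1 + γ i * m1) * (m * t2 - t * m2) =
        α i * x + (t2 * m1 - m2 * t1) * (β i * t + γ i * m) := by ring
    rw [e, hdet]
    linarith

/-- The norm of a lattice vector. -/
def nu (β γ : Fin 3 → ℤ) (t m : ℤ) : ℕ :=
  Finset.univ.sup (fun i => (β i * t + γ i * m).natAbs)

lemma nu_le {β γ : Fin 3 → ℤ} {t m : ℤ} {X : ℕ} :
    nu β γ t m ≤ X ↔ ∀ i, |β i * t + γ i * m| ≤ X := by
  unfold nu
  rw [Finset.sup_le_iff]
  constructor
  · intro h i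
    have := h i (Finset.mem_univ i)
    rw [Int.abs_eq_natAbs]
    exact_mod_cast this
  · intro h i _
    have := h i
    rw [Int.abs_eq_natAbs] at this
    exact_mod_cast this

lemma abs_le_nu (β γ : Fin 3 → ℤ) (t m : ℤ) (i : Fin 3) :
    |β i * t + γ i * m| ≤ nu β γ t m := nu_le.1 le_rfl i

lemma eq_zero_of_nu {β γ : Fin 3 → ℤ} (hδ : β 0 * γ 1 - β 1 * γ 0 ≠ 0) {t m : ℤ}
    (h : nu β γ t m = 0) : t = 0 ∧ m = 0 := by
  have h0 := abs_le_nu β γ t m 0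
  have h1 := abs_le_nu β γ t m 1
  rw [h] at h0 h1
  simp only [Nat.cast_zero, abs_nonpos_iff] at h0 h1
  have ht : (β 0 * γ 1 - β 1 * γ 0) * t = 0 := by linear_combination γ 1 * h0 - γ 0 * h1
  have hm : (β 0 * γ 1 - β 1 * γ 0) * m = 0 := by linear_combination β 0 * h1 - β 1 * h0
  constructor
  · exact (mul_eq_zero.1 ht).resolve_left hδ
  · exact (mul_eq_zero.1 hm).resolve_left hδ

/-- Reduced data. -/
def Red (β γ : Fin 3 → ℤ) (g h : ℕ) : Prop :=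
  (∀ i, |β i| ≤ h) ∧ (∀ i, |γ i| ≤ g) ∧ g ≤ h ∧ 0 < g ∧ ∀ n : ℤ, h ≤ nu β γ 1 n

lemma exists_reduced (α β γ : Fin 3 → ℤ) (hβ : ∑ i, β i = 0) (hγ : ∑ i, γ i = 0)
    (hδ : β 0 * γ 1 - β 1 * γ 0 ≠ 0) :
    ∃ (β' γ' : Fin 3 → ℤ) (g h : ℕ), ∑ i, β' i = 0 ∧ ∑ i, γ' i = 0 ∧
      β' 0 * γ' 1 - β' 1 * γ' 0 ≠ 0 ∧ Red β' γ' g h ∧ ∀ x, Mem α β' γ' x ↔ Mem α β γ x := by
  classical
  -- shortest vector
  have hex : ∃ n : ℕ, ∃ t m : ℤ, (t ≠ 0 ∨ m ≠ 0) ∧ nu β γ t m = n :=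
    ⟨_, 1, 0, Or.inl one_ne_zero, rfl⟩
  obtain ⟨t1, m1, hne, hn⟩ := Nat.find_spec hex
  have hmin : ∀ t m : ℤ, (t ≠ 0 ∨ m ≠ 0) → Nat.find hex ≤ nu β γ t m := fun t m h =>
    Nat.find_min' hex ⟨t, m, h, rfl⟩
  set g := Nat.find hex with hg
  have hgpos : 0 < g := by
    rw [← hn]
    apply Nat.pos_of_ne_zero
    intro h0
    obtain ⟨h1, h2⟩ := eq_zero_of_nu hδ h0
    rcases hne with h | h
    · exact h h1
    · exact h h2
  -- primitive
  have hcop : IsCoprime t1 m1 := by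
    rw [Int.isCoprime_iff_gcd_eq_one]
    by_contra hd
    set d := Int.gcd t1 m1 with hdd
    have hd0 : 0 < d := by
      apply Int.gcd_pos_iff.2
      exact hne
    have hd2 : 2 ≤ d := by omega
    obtain ⟨t', ht'⟩ := Int.gcd_dvd_left t1 m1
    obtain ⟨m', hm'⟩ := Int.gcd_dvd_right t1 m1
    rw [← hdd] at ht' hm'
    have hne' : t' ≠ 0 ∨ m' ≠ 0 := by
      rcases hne with h | h
      · left
        intro h0
        rw [h0, mul_zero] at ht'
        exact h ht'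
      · right
        intro h0
        rw [h0, mul_zero] at hm'
        exact h hm'
    have h1 := hmin t' m' hne'
    have h3 : nu β γ t' m' ≤ g / d := by
      unfold nu
      rw [Finset.sup_le_iff]
      intro i _
      rw [Nat.le_div_iff_mul_le hd0]
      have h4 := abs_le_nu β γ t1 m1 i
      rw [hn, ht', hm', Int.abs_eq_natAbs] at h4
      have h5 : β i * (d * t') + γ i * (d * m') = (β i * t' + γ i * m') * d := by ring
      rw [h5, Int.natAbs_mul, Int.natAbs_natCast] at h4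
      exact_mod_cast h4
    have h4 : g / d < g := Nat.div_lt_self hgpos hd2
    omega
  -- completion to a basis
  obtain ⟨u, v, huv⟩ := hcop
  have hex2 : ∃ n : ℕ, ∃ t m : ℤ, t * m1 - m * t1 = 1 ∧ nu β γ t m = n :=
    ⟨_, v, -u, by linarith, rfl⟩
  obtain ⟨t2, m2, hdet, hn2⟩ := Nat.find_spec hex2
  have hmin2 : ∀ t m : ℤ, t * m1 - m * t1 = 1 → Nat.find hex2 ≤ nu β γ t m := fun t m h =>
    Nat.find_min' hex2 ⟨t, m, h, rfl⟩
  set h := Nat.find hex2 with hh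
  refine ⟨fun i => β i * t2 + γ i * m2, fun i => β i * t1 + γ i * m1, g, h, ?_, ?_, ?_, ?_, ?_⟩
  · rw [Finset.sum_add_distrib, ← Finset.sum_mul, ← Finset.sum_mul, hβ, hγ]
    ring
  · rw [Finset.sum_add_distrib, ← Finset.sum_mul, ← Finset.sum_mul, hβ, hγ]
    ring
  · have : (β 0 * t2 + γ 0 * m2) * (β 1 * t1 + γ 1 * m1) -
        (β 1 * t2 + γ 1 * m2) * (β 0 * t1 + γ 0 * m1) =
        (β 0 * γ 1 - β 1 * γ 0) * (t2 * m1 - m2 * t1) := by ring
    rw [this, hdet, mul_one]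
    exact hδ
  · refine ⟨fun i => ?_, fun i => ?_, ?_, hgpos, ?_⟩
    · rw [← hn2]
      exact abs_le_nu β γ t2 m2 i
    · rw [← hn]
      exact abs_le_nu β γ t1 m1 i
    · rw [← hn2]
      apply hmin
      by_contra hcon
      rw [not_or, not_not, not_not] at hcon
      rw [hcon.1, hcon.2] at hdet
      simp at hdet
    · intro n
      have h1 : nu (fun i => β i * t2 + γ i * m2) (fun i => β i * t1 + γ i * m1) 1 n =
          nu β γ (t2 + n * t1) (m2 + n * m1) := by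
        unfold nu
        congr 1
        funext i
        congr 1
        ring
      rw [h1]
      apply hmin2
      linarith
  · intro x
    exact mem_basis α β γ hdet x

/-- Distance to the line of the shortest vector. -/
lemma dist_bound {β γ : Fin 3 → ℤ} {g h : ℕ} (hR : Red β γ g h) (t m : ℤ) (X : ℕ)
    (hX : ∀ i, |β i * t + γ i * m| ≤ X) : |t| * h ≤ 2 * X := by
  obtain ⟨-, h2, h3, -, h5⟩ := hR
  by_cases ht : t = 0
  · rw [ht]
    simp
  set n : ℤ := round ((m : ℚ) / t) with hn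
  have htq : (t : ℚ) ≠ 0 := by exact_mod_cast ht
  have hr : |(m : ℚ) / t - n| ≤ 1 / 2 := abs_sub_round _
  have h6 : 2 * |(m : ℚ) - n * t| ≤ |(t : ℚ)| := by
    have : (m : ℚ) - n * t = ((m : ℚ) / t - n) * t := by field_simp
    rw [this, abs_mul]
    have := abs_nonneg (t : ℚ)
    nlinarith
  have h7 : 2 * |m - n * t| ≤ |t| := by exact_mod_cast h6
  -- the vector (1, n)
  have h8 : |t| * (nu β γ 1 n : ℤ) ≤ X + |m - n * t| * g := by
    obtain ⟨i, hi⟩ : ∃ i, (nu β γ 1 n : ℤ) = |β i * 1 + γ i * n| := by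
      obtain ⟨i, _, hi⟩ := Finset.exists_mem_eq_sup Finset.univ Finset.univ_nonempty
        (fun i => (β i * 1 + γ i * n).natAbs)
      refine ⟨i, ?_⟩
      rw [Int.abs_eq_natAbs]
      unfold nu
      rw [hi]
    rw [hi, ← abs_mul]
    have e : t * (β i * 1 + γ i * n) = (β i * t + γ i * m) - (m - n * t) * γ i := by ring
    rw [e]
    refine (abs_sub _ _).trans ?_
    rw [abs_mul]
    have h9 := hX i
    have h10 := mul_le_mul_of_nonneg_left (h2 i) (abs_nonneg (m - n * t))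
    linarith
  have h9 := h5 n
  have h10 : (h : ℤ) ≤ nu β γ 1 n := by exact_mod_cast h9
  have h11 : (g : ℤ) ≤ h := by exact_mod_cast h3
  have h12 : |t| * (h : ℤ) ≤ |t| * nu β γ 1 n := mul_le_mul_of_nonneg_left h10 (abs_nonneg t)
  have h13 : |m - n * t| * (g : ℤ) ≤ |m - n * t| * h :=
    mul_le_mul_of_nonneg_left h11 (abs_nonneg _)
  have h14 : 2 * |m - n * t| * (h : ℤ) ≤ |t| * h :=
    mul_le_mul_of_nonneg_right h7 (by positivity)
  nlinarith

/-- Translation that makes the forms almost equal. -/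
lemma exists_centre (α β γ : Fin 3 → ℤ) (hβ : ∑ i, β i = 0) (hγ : ∑ i, γ i = 0)
    (hδ : β 0 * γ 1 - β 1 * γ 0 ≠ 0) {g h : ℕ} (hR : Red β γ g h) :
    ∃ k l : ℤ, ∀ i, |3 * (α i + k * β i + l * γ i) - ∑ j, α j| ≤ 3 * h := by
  rw [Fin.sum_univ_three] at hβ hγ
  rw [Fin.sum_univ_three]
  set p := α 0 + α 1 + α 2 with hp
  set δ : ℚ := ((β 0 * γ 1 - β 1 * γ 0 : ℤ) : ℚ) with hδd
  have hδ' : δ ≠ 0 := by rw [hδd]; exact_mod_cast hδ
  have hδe : δ = (β 0 : ℚ) * γ 1 - β 1 * γ 0 := by rw [hδd]; push_cast; ring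
  set r0 : ℚ := (p : ℚ) / 3 - α 0 with hr0
  set r1 : ℚ := (p : ℚ) / 3 - α 1 with hr1
  set t0 : ℚ := (r0 * γ 1 - r1 * γ 0) / δ with ht0
  set m0 : ℚ := (β 0 * r1 - β 1 * r0) / δ with hm0
  have e0 : (β 0 : ℚ) * t0 + γ 0 * m0 = r0 := by
    rw [ht0, hm0]
    field_simp
    rw [hδe]
    ring
  have e1 : (β 1 : ℚ) * t0 + γ 1 * m0 = r1 := by
    rw [ht0, hm0]
    field_simp
    rw [hδe]
    ring
  have hβq : (β 0 : ℚ) + β 1 + β 2 = 0 := by exact_mod_cast hβ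
  have hγq : (γ 0 : ℚ) + γ 1 + γ 2 = 0 := by exact_mod_cast hγ
  have hpq : (p : ℚ) = α 0 + α 1 + α 2 := by rw [hp]; push_cast; ring
  have e2 : (β 2 : ℚ) * t0 + γ 2 * m0 = (p : ℚ) / 3 - α 2 := by
    linear_combination t0 * hβq + m0 * hγq - e0 - e1 - hpq
  refine ⟨round t0, round m0, fun i => ?_⟩
  have hk : |t0 - round t0| ≤ 1 / 2 := abs_sub_round _
  have hl : |m0 - round m0| ≤ 1 / 2 := abs_sub_round _
  have ei : (β i : ℚ) * t0 + γ i * m0 = (p : ℚ) / 3 - α i := by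
    fin_cases i
    · exact e0
    · exact e1
    · exact e2
  have h1 : |(β i : ℚ)| ≤ h := by exact_mod_cast hR.1 i
  have h2 : |(γ i : ℚ)| ≤ h := by
    have := hR.2.1 i
    have h3 : (g : ℤ) ≤ h := by exact_mod_cast hR.2.2.1
    exact_mod_cast this.trans h3
  have e3 : (3 * (α i + round t0 * β i + round m0 * γ i) - p : ℚ) =
      -(3 * ((t0 - round t0) * β i + (m0 - round m0) * γ i)) := by
    linear_combination 3 * ei
  have h4 : |(3 * (α i + round t0 * β i + round m0 * γ i) - p : ℚ)| ≤ 3 * h := by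
    rw [e3, abs_neg, abs_mul]
    have h5 : |(t0 - round t0) * (β i : ℚ) + (m0 - round m0) * γ i| ≤ h := by
      refine (abs_add_le _ _).trans ?_
      rw [abs_mul, abs_mul]
      have := abs_nonneg (β i : ℚ)
      have := abs_nonneg (γ i : ℚ)
      have := abs_nonneg (t0 - round t0)
      have := abs_nonneg (m0 - round m0)
      nlinarith
    have h6 : |(3 : ℚ)| = 3 := by norm_num
    rw [h6]
    linarith
  exact_mod_cast h4

lemma t_bound {α β γ : Fin 3 → ℤ} (hβ : ∑ i, β i = 0) (hγ : ∑ i, γ i = 0) {g h : ℕ}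
    (hR : Red β γ g h) (hc : ∀ i, |3 * α i - ∑ j, α j| ≤ 3 * h) (hp : ∑ j, α j < 3 * h)
    {x t m : ℤ} (hx : 0 < x) (hf : ∀ i, 0 ≤ α i * x + β i * t + γ i * m) : |t| ≤ 6 * x := by
  rw [Fin.sum_univ_three] at hβ hγ
  set p := ∑ j, α j with hpd
  have hp3 : p = α 0 + α 1 + α 2 := by rw [hpd, Fin.sum_univ_three]
  have hsum : (α 0 * x + β 0 * t + γ 0 * m) + (α 1 * x + β 1 * t + γ 1 * m) +
      (α 2 * x + β 2 * t + γ 2 * m) = p * x := by
    rw [hp3]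
    linear_combination t * hβ + m * hγ
  have hub : ∀ i, α i * x + β i * t + γ i * m ≤ p * x := by
    have h0 := hf 0
    have h1 := hf 1
    have h2 := hf 2
    intro i
    fin_cases i
    · show α 0 * x + β 0 * t + γ 0 * m ≤ p * x
      linarith
    · show α 1 * x + β 1 * t + γ 1 * m ≤ p * x
      linarith
    · show α 2 * x + β 2 * t + γ 2 * m ≤ p * x
      linarith
  obtain ⟨y, rfl⟩ : ∃ y : ℕ, x = y := ⟨x.toNat, (Int.toNat_of_nonneg hx.le).symm⟩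
  have hX : ∀ i, |β i * t + γ i * m| ≤ ((3 * h * y : ℕ) : ℤ) := by
    intro i
    have h1 := hf i
    have h2 := hub i
    have h3 := abs_le.1 (hc i)
    push_cast
    rw [abs_le]
    constructor
    · nlinarith
    · nlinarith
  have h4 := dist_bound hR t m _ hX
  have hh : (0 : ℤ) < h := by
    have h5 := hR.2.2.1
    have h6 := hR.2.2.2.1
    exact_mod_cast lt_of_lt_of_le h6 h5
  push_cast at h4
  have h5 : |t| * (h : ℤ) ≤ (6 * y) * h := by linarith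
  exact le_of_mul_le_mul_right h5 hh

lemma mem_neg (α β γ : Fin 3 → ℤ) (x : ℤ) : Mem α β (fun i => -γ i) x ↔ Mem α β γ x := by
  constructor
  · rintro ⟨t, m, h⟩
    refine ⟨t, -m, fun i => ?_⟩
    have := h i
    linarith
  · rintro ⟨t, m, h⟩
    refine ⟨t, -m, fun i => ?_⟩
    have := h i
    linarith

/-- One coordinate of `γ` has sign opposite to the two others. -/
lemma sign_cases (γ : Fin 3 → ℤ) (hγ : ∑ i, γ i = 0) (hne : ∃ i, γ i ≠ 0) :
    ∃ i0, (γ i0 < 0 ∧ ∀ j, j ≠ i0 → 0 ≤ γ j) ∨ (-γ i0 < 0 ∧ ∀ j, j ≠ i0 → 0 ≤ -γ j) := by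
  rw [Fin.sum_univ_three] at hγ
  have key : ∀ i0 : Fin 3, (γ i0 < 0 ∧ 0 ≤ γ (i0 + 1) ∧ 0 ≤ γ (i0 + 2)) ∨
      (-γ i0 < 0 ∧ 0 ≤ -γ (i0 + 1) ∧ 0 ≤ -γ (i0 + 2)) →
      ((γ i0 < 0 ∧ ∀ j, j ≠ i0 → 0 ≤ γ j) ∨ (-γ i0 < 0 ∧ ∀ j, j ≠ i0 → 0 ≤ -γ j)) := by
    intro i0 h
    rcases h with ⟨h0, h1, h2⟩ | ⟨h0, h1, h2⟩
    · left
      refine ⟨h0, fun j hj => ?_⟩
      have : j = i0 + 1 ∨ j = i0 + 2 := by
        fin_cases i0 <;> fin_cases j <;> simp at hj ⊢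
      rcases this with rfl | rfl
      · exact h1
      · exact h2
    · right
      refine ⟨h0, fun j hj => ?_⟩
      have : j = i0 + 1 ∨ j = i0 + 2 := by
        fin_cases i0 <;> fin_cases j <;> simp at hj ⊢
      rcases this with rfl | rfl
      · exact h1
      · exact h2
  have e1 : ((0 : Fin 3) + 1) = 1 := rfl
  have e2 : ((0 : Fin 3) + 2) = 2 := rfl
  have e3 : ((1 : Fin 3) + 1) = 2 := rfl
  have e4 : ((1 : Fin 3) + 2) = 0 := rfl
  have e5 : ((2 : Fin 3) + 1) = 0 := rfl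
  have e6 : ((2 : Fin 3) + 2) = 1 := rfl
  have k0 := key 0
  have k1 := key 1
  have k2 := key 2
  rw [e1, e2] at k0
  rw [e3, e4] at k1
  rw [e5, e6] at k2
  have hne' : ¬ (γ 0 = 0 ∧ γ 1 = 0 ∧ γ 2 = 0) := by
    rintro ⟨a, b, c⟩
    obtain ⟨i, hi⟩ := hne
    fin_cases i
    · exact hi a
    · exact hi b
    · exact hi c
  by_cases c0 : (γ 0 < 0 ∧ 0 ≤ γ 1 ∧ 0 ≤ γ 2) ∨ (-γ 0 < 0 ∧ 0 ≤ -γ 1 ∧ 0 ≤ -γ 2)
  · exact ⟨0, k0 c0⟩
  by_cases c1 : (γ 1 < 0 ∧ 0 ≤ γ 2 ∧ 0 ≤ γ 0) ∨ (-γ 1 < 0 ∧ 0 ≤ -γ 2 ∧ 0 ≤ -γ 0)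
  · exact ⟨1, k1 c1⟩
  by_cases c2 : (γ 2 < 0 ∧ 0 ≤ γ 0 ∧ 0 ≤ γ 1) ∨ (-γ 2 < 0 ∧ 0 ≤ -γ 0 ∧ 0 ≤ -γ 1)
  · exact ⟨2, k2 c2⟩
  exfalso
  omega

/-- Only finitely many lattice points have to be tested. -/
theorem reduce (α β γ : Fin 3 → ℤ) (hβ : ∑ i, β i = 0) (hγ : ∑ i, γ i = 0)
    (hδ : β 0 * γ 1 - β 1 * γ 0 ≠ 0) (h1 : ¬ Mem α β γ 1) :
    ∃ α' β' γ' : Fin 3 → ℤ, ∑ i, α' i = ∑ i, α i ∧ ∑ i, β' i = 0 ∧ ∑ i, γ' i = 0 ∧
      β' 0 * γ' 1 - β' 1 * γ' 0 ≠ 0 ∧ (∃ i0, γ' i0 < 0 ∧ ∀ j, j ≠ i0 → 0 ≤ γ' j) ∧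
      (∀ x, Mem α' β' γ' x ↔ Mem α β γ x) ∧
      ∀ x : ℤ, 0 < x → Mem α β γ x → ∃ t m : ℤ, |t| ≤ 6 * x ∧ |m| ≤ 7 * x ∧
        ∀ i, 0 ≤ α' i * x + β' i * t + γ' i * m := by
  obtain ⟨β1, γ1, g, h, hβ1, hγ1, hδ1, hR, hmem1⟩ := exists_reduced α β γ hβ hγ hδ
  obtain ⟨k, l, hkl⟩ := exists_centre α β1 γ1 hβ1 hγ1 hδ1 hR
  set α1 : Fin 3 → ℤ := fun i => α i + k * β1 i + l * γ1 i with hα1
  have hsα1 : ∑ i, α1 i = ∑ i, α i := by
    rw [hα1, Finset.sum_add_distrib, Finset.sum_add_distrib, ← Finset.mul_sum, ← Finset.mul_sum,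
      hβ1, hγ1]
    ring
  have hmem2 : ∀ x, Mem α1 β1 γ1 x ↔ Mem α β γ x := fun x =>
    (mem_trans α β1 γ1 k l x).trans (hmem1 x)
  have hc : ∀ i, |3 * α1 i - ∑ j, α1 j| ≤ 3 * h := by
    intro i
    rw [hsα1]
    exact hkl i
  have hp : ∑ j, α1 j < 3 * h := by
    by_contra hcon
    rw [not_lt] at hcon
    apply h1
    rw [← hmem2]
    refine ⟨0, 0, fun i => ?_⟩
    have := (abs_le.1 (hc i)).1
    linarith
  -- sign structure
  have hne : ∃ i, γ1 i ≠ 0 := by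
    by_contra hcon
    rw [not_exists] at hcon
    apply hδ1
    have a := not_not.1 (hcon 0)
    have b := not_not.1 (hcon 1)
    rw [a, b]
    ring
  obtain ⟨i0, hi0⟩ := sign_cases γ1 hγ1 hne
  obtain ⟨γ2, hγ2, hδ2, hs0, hs1, hmem3, htb⟩ : ∃ γ2 : Fin 3 → ℤ, ∑ i, γ2 i = 0 ∧
      β1 0 * γ2 1 - β1 1 * γ2 0 ≠ 0 ∧ γ2 i0 < 0 ∧ (∀ j, j ≠ i0 → 0 ≤ γ2 j) ∧
      (∀ x, Mem α1 β1 γ2 x ↔ Mem α β γ x) ∧
      ∀ x t m : ℤ, 0 < x → (∀ i, 0 ≤ α1 i * x + β1 i * t + γ2 i * m) → |t| ≤ 6 * x := by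
    rcases hi0 with ⟨a, b⟩ | ⟨a, b⟩
    · exact ⟨γ1, hγ1, hδ1, a, b, hmem2, fun x t m hx hf => t_bound hβ1 hγ1 hR hc hp hx hf⟩
    · refine ⟨fun i => -γ1 i, ?_, ?_, a, b, fun x => (mem_neg α1 β1 γ1 x).trans (hmem2 x), ?_⟩
      · rw [Finset.sum_neg_distrib, hγ1, neg_zero]
      · intro h0
        apply hδ1
        linarith
      · intro x t m hx hf
        apply t_bound hβ1 hγ1 hR hc hp (m := -m) hx
        intro i
        have := hf i
        linarith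
  -- shear
  set c : ℤ := -γ2 i0 with hcdef
  have hcpos : 0 < c := by rw [hcdef]; linarith
  set n : ℤ := β1 i0 / c with hn
  set l2 : ℤ := α1 i0 / c with hl2
  set β3 : Fin 3 → ℤ := fun i => β1 i + n * γ2 i with hβ3
  set α3 : Fin 3 → ℤ := fun i => α1 i + l2 * γ2 i with hα3
  have hb0 : 0 ≤ β3 i0 ∧ β3 i0 ≤ c := by
    have e : β3 i0 = β1 i0 % c := by
      have := Int.emod_add_mul_ediv (β1 i0) c
      rw [hβ3]
      simp only
      have hg : γ2 i0 = -c := by rw [hcdef]; ring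
      rw [hg]
      linarith
    rw [e]
    exact ⟨Int.emod_nonneg _ hcpos.ne', (Int.emod_lt_of_pos _ hcpos).le⟩
  have ha0 : 0 ≤ α3 i0 ∧ α3 i0 ≤ c := by
    have e : α3 i0 = α1 i0 % c := by
      have := Int.emod_add_mul_ediv (α1 i0) c
      rw [hα3]
      simp only
      have hg : γ2 i0 = -c := by rw [hcdef]; ring
      rw [hg]
      linarith
    rw [e]
    exact ⟨Int.emod_nonneg _ hcpos.ne', (Int.emod_lt_of_pos _ hcpos).le⟩
  have hshift : ∀ x t m : ℤ, ∀ i, α3 i * x + β3 i * t + γ2 i * m =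
      α1 i * x + β1 i * t + γ2 i * (m + l2 * x + n * t) := by
    intro x t m i
    rw [hα3, hβ3]
    ring
  have hmem4 : ∀ x, Mem α3 β3 γ2 x ↔ Mem α β γ x := by
    intro x
    rw [← hmem3]
    constructor
    · rintro ⟨t, m, hf⟩
      refine ⟨t, m + l2 * x + n * t, fun i => ?_⟩
      rw [← hshift]
      exact hf i
    · rintro ⟨t, m, hf⟩
      refine ⟨t, m - l2 * x - n * t, fun i => ?_⟩
      rw [hshift]
      have e : m - l2 * x - n * t + l2 * x + n * t = m := by ring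
      rw [e]
      exact hf i
  refine ⟨α3, β3, γ2, ?_, ?_, hγ2, ?_, ⟨i0, hs0, hs1⟩, hmem4, ?_⟩
  · rw [hα3, Finset.sum_add_distrib, ← Finset.mul_sum, hγ2, ← hsα1]
    ring
  · rw [hβ3, Finset.sum_add_distrib, ← Finset.mul_sum, hβ1, hγ2]
    ring
  · intro h0
    apply hδ2
    rw [hβ3] at h0
    simp only at h0
    linarith
  · intro x hx hM
    rw [← hmem4] at hM
    obtain ⟨t, m, hf⟩ := hM
    have ht : |t| ≤ 6 * x := by
      apply htb x t (m + l2 * x + n * t) hx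
      intro i
      rw [← hshift]
      exact hf i
    set A : ℤ := α3 i0 * x + β3 i0 * t with hA
    have hgi : γ2 i0 = -c := by rw [hcdef]; ring
    refine ⟨t, A / c, ht, ?_, ?_⟩
    · have hAabs : |A| ≤ (7 * x) * c := by
        rw [hA]
        refine (abs_add_le _ _).trans ?_
        rw [abs_mul, abs_mul, abs_of_nonneg ha0.1, abs_of_nonneg hb0.1, abs_of_pos hx]
        have h3 : α3 i0 * x ≤ c * x := mul_le_mul_of_nonneg_right ha0.2 hx.le
        have h4 : β3 i0 * |t| ≤ c * (6 * x) := mul_le_mul hb0.2 ht (abs_nonneg t) hcpos.le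
        linarith
      rw [abs_le] at hAabs ⊢
      constructor
      · apply Int.le_ediv_of_mul_le hcpos
        linarith
      · have := Int.ediv_le_ediv hcpos hAabs.2
        rwa [Int.mul_ediv_cancel _ hcpos.ne'] at this
    · have hmle : m ≤ A / c := by
        apply Int.le_ediv_of_mul_le hcpos
        have := hf i0
        rw [hgi] at this
        linarith
      intro i
      by_cases hi : i = i0
      · rw [hi, hgi]
        have := Int.ediv_mul_le A hcpos.ne'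
        linarith
      · have h5 := hs1 i hi
        have h6 := hf i
        have h7 : γ2 i * m ≤ γ2 i * (A / c) := mul_le_mul_of_nonneg_left hmle h5
        linarith

end Pool.Hhelper28.Quot
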